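import Pool.Agent.Helper57_DA.Run2

/-!
Devices: forbidden sets with a given support that secure the forks and kill a set of types.
-/

set_option autoImplicit false

namespace CLB.H57

open Finset
open CLB.H95
open H3DA (Q neg nr)
open CLB.H3 (CExt)

/-- Forbidden sets supported on `S`, light on `P`, that secure the left fork (if `A`) and the right fork
(if `B`) and kill the types in `K`. -/
def Dev (m : ℕ) (J : ℕ → Prop) (e e' : ℕ) (s₀ : ℕ → Q) (P S : ℕ → Prop) (A B : Prop)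
    (K : Ty → Prop) : Prop :=
  ∃ F : ℕ → Finset Q, (∀ j, (F j).card ≤ 2) ∧ (∀ j, P j → (F j).card ≤ 1) ∧
    (J 0 → J 1 → F (1 - e) = ∅) ∧ (J m → J (m + 1) → F (2 * m + 1 - e') = ∅) ∧
    (∀ j, ¬ S j → F j = ∅) ∧
    ∀ s : ℕ → Q, (∀ j ≤ m + 1, ¬ J j → s j = s₀ j) → (∀ j ≤ m + 1, J j → s j ∉ F j) →
      (J 0 → J 1 → s 0 ≠ neg (s 1)) → (J m → J (m + 1) → s m ≠ neg (s (m + 1))) →
      (A → s 0 ≠ neg (s 1)) ∧ (B → s m ≠ neg (s (m + 1))) ∧ ∀ D, K D → ¬ Tight D s m

variable {m : ℕ} {J : ℕ → Prop} {s₀ : ℕ → Q} {e e' : ℕ} {P S S' : ℕ → Prop} {A B A' B' : Prop}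
  {K K' : Ty → Prop}

lemma Dev.mono (h : Dev m J e e' s₀ P S A B K) (hA : A' → A) (hB : B' → B) (hK : ∀ D, K' D → K D) :
    Dev m J e e' s₀ P S A' B' K' := by
  obtain ⟨F, c1, c2, c3, c4, c5, c6⟩ := h
  refine ⟨F, c1, c2, c3, c4, c5, fun s a b c d => ?_⟩
  obtain ⟨g1, g2, g3⟩ := c6 s a b c d
  exact ⟨fun h => g1 (hA h), fun h => g2 (hB h), fun D h => g3 D (hK D h)⟩

lemma Dev.comb (h : Dev m J e e' s₀ P S A B K) (h' : Dev m J e e' s₀ P S' A' B' K')
    (hS : ∀ j, S j → ¬ S' j) : Dev m J e e' s₀ P (fun j => S j ∨ S' j) (A ∨ A') (B ∨ B')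
      (fun D => K D ∨ K' D) := by
  obtain ⟨F, c1, c2, c3, c4, c5, c6⟩ := h
  obtain ⟨F', d1, d2, d3, d4, d5, d6⟩ := h'
  have key : ∀ j, F j = ∅ ∨ F' j = ∅ := by
    intro j
    by_cases hj : S j
    · exact Or.inr (d5 j (hS j hj))
    · exact Or.inl (c5 j hj)
  refine ⟨fun j => F j ∪ F' j, fun j => ?_, fun j hj => ?_, fun h1 h2 => ?_, fun h1 h2 => ?_,
    fun j hj => ?_, fun s a b c d => ?_⟩
  · dsimp only
    rcases key j with h | h
    · rw [h, Finset.empty_union]; exact d1 j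
    · rw [h, Finset.union_empty]; exact c1 j
  · dsimp only
    rcases key j with h | h
    · rw [h, Finset.empty_union]; exact d2 j hj
    · rw [h, Finset.union_empty]; exact c2 j hj
  · dsimp only
    rw [c3 h1 h2, d3 h1 h2, Finset.empty_union]
  · dsimp only
    rw [c4 h1 h2, d4 h1 h2, Finset.empty_union]
  · dsimp only
    rw [c5 j (fun h => hj (Or.inl h)), d5 j (fun h => hj (Or.inr h)), Finset.empty_union]
  · obtain ⟨g1, g2, g3⟩ := c6 s a (fun j h1 h2 h3 => b j h1 h2 (Finset.mem_union_left _ h3)) c d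
    obtain ⟨k1, k2, k3⟩ := d6 s a (fun j h1 h2 h3 => b j h1 h2 (Finset.mem_union_right _ h3)) c d
    exact ⟨fun h => h.elim g1 k1, fun h => h.elim g2 k2, fun D h => h.elim (g3 D) (k3 D)⟩

/-- Reversal of a device. -/
lemma Dev.rev (hm : 1 ≤ m) (he : e = 0 ∨ e = 1) (he' : e' = m ∨ e' = m + 1)
    (hP : ∀ j, P j → j ≤ m + 1)
    (h : Dev m (fun j => J (m + 1 - j)) (m + 1 - e') (m + 1 - e) (fun j => s₀ (m + 1 - j))
      (fun j => P (m + 1 - j)) S' B A (fun D => K (altT D (m + 1))))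
    (hSS : ∀ j ≤ m + 1, S' (m + 1 - j) → S j) : Dev m J e e' s₀ P S A B K := by
  obtain ⟨F, c1, c2, c3, c4, c5, c6⟩ := h
  simp only [Nat.sub_zero, Nat.add_sub_cancel, show m + 1 - m = 1 by omega, Nat.sub_self] at c3 c4
  refine ⟨fun j => if j ≤ m + 1 then F (m + 1 - j) else ∅, fun j => ?_, fun j hj => ?_,
    fun h1 h2 => ?_, fun h1 h2 => ?_, fun j hj => ?_, fun s hs hav q1 q2 => ?_⟩
  · dsimp only
    split_ifs
    · exact c1 _
    · simp
  · dsimp only
    rw [if_pos (hP j hj)]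
    refine c2 _ ?_
    have h3 := hP j hj
    show P (m + 1 - (m + 1 - j))
    rwa [show m + 1 - (m + 1 - j) = j by omega]
  · have h4 := c4 h2 h1
    dsimp only
    rw [if_pos (by omega)]
    rwa [show 2 * m + 1 - (m + 1 - e) = m + 1 - (1 - e) by omega] at h4
  · have h4 := c3 h2 h1
    dsimp only
    rw [if_pos (by omega)]
    rwa [show 1 - (m + 1 - e') = m + 1 - (2 * m + 1 - e') by omega] at h4
  · dsimp only
    split_ifs with h1
    · exact c5 _ (fun h2 => hj (hSS j h1 h2))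
    · rfl
  · have h1 := c6 (fun j => s (m + 1 - j)) (fun j hj hJ => hs _ (by omega) hJ) (fun j hj hJ => by
      have := hav (m + 1 - j) (by omega) hJ
      dsimp only at this
      rwa [if_pos (by omega), show m + 1 - (m + 1 - j) = j by omega] at this) (by
        simp only [Nat.sub_zero, Nat.add_sub_cancel]
        exact fun h2 h3 h4 => q2 h3 h2 (H3DA.eq_neg_symm h4)) (by
        simp only [show m + 1 - m = 1 by omega, Nat.sub_self]
        exact fun h2 h3 h4 => q1 h3 h2 (H3DA.eq_neg_symm h4))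
    simp only [Nat.sub_zero, Nat.add_sub_cancel, show m + 1 - m = 1 by omega, Nat.sub_self] at h1
    obtain ⟨g1, g2, g3⟩ := h1
    refine ⟨fun hA h4 => g2 hA (H3DA.eq_neg_symm h4), fun hB h4 => g1 hB (H3DA.eq_neg_symm h4),
      fun D hD hT => ?_⟩
    exact g3 (altT D (m + 1)) (by rwa [altT_altT']) hT.rev

/-- Nothing is forbidden. -/
lemma Dev.nil (h : ∀ s : ℕ → Q, (∀ j ≤ m + 1, ¬ J j → s j = s₀ j) →
      (J 0 → J 1 → s 0 ≠ neg (s 1)) → (J m → J (m + 1) → s m ≠ neg (s (m + 1))) →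
      (A → s 0 ≠ neg (s 1)) ∧ (B → s m ≠ neg (s (m + 1))) ∧ ∀ D, K D → ¬ Tight D s m) :
    Dev m J e e' s₀ P (fun _ => False) A B K :=
  ⟨fun _ => ∅, fun _ => by simp, fun _ _ => by simp, fun _ _ => rfl, fun _ _ => rfl, fun _ _ => rfl,
    fun s a _ c d => h s a c d⟩

/-- One type is left by two known labels of a fork. -/
lemma fork_type (x y : Q) : ∃ D1 : Ty, ∀ D, frk D x y = true → D = D1 := by
  by_cases hex : ∃ D, frk D x y = true
  · obtain ⟨D1, hD1⟩ := hex
    exact ⟨D1, fun D hD => frk_unique _ _ _ _ hD hD1⟩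
  · push Not at hex
    exact ⟨(0, true), fun D hD => absurd hD (hex D)⟩

lemma dev_left_unseen (h0 : ¬ J 0) (h1 : ¬ J 1) (hne : s₀ 0 ≠ neg (s₀ 1)) :
    ∃ D1, Dev m J e e' s₀ P (fun _ => False) True False (fun D => D ≠ D1) := by
  obtain ⟨D1, hD1⟩ := fork_type (s₀ 0) (s₀ 1)
  refine ⟨D1, Dev.nil fun s hs _ _ => ?_⟩
  rw [hs 0 (by omega) h0, hs 1 (by omega) h1]
  refine ⟨fun _ => hne, fun h => h.elim, fun D hD hT => hD (hD1 D ?_)⟩
  have := hT.1
  rwa [hs 0 (by omega) h0, hs 1 (by omega) h1] at this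

lemma dev_right_unseen (h0 : ¬ J m) (h1 : ¬ J (m + 1)) (hne : s₀ m ≠ neg (s₀ (m + 1))) :
    ∃ D1, Dev m J e e' s₀ P (fun _ => False) False True (fun D => D ≠ D1) := by
  obtain ⟨D1, hD1⟩ := fork_type (s₀ m) (s₀ (m + 1))
  refine ⟨altT D1 (m + 1), Dev.nil fun s hs _ _ => ?_⟩
  rw [hs m (by omega) h0, hs (m + 1) (by omega) h1]
  refine ⟨fun h => h.elim, fun _ => hne, fun D hD hT => hD ?_⟩
  have := hT.2.2
  rw [hs m (by omega) h0, hs (m + 1) (by omega) h1] at this
  rw [← hD1 _ this, altT_altT']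

/-- A left fork with one port. -/
lemma dev_left_mixed (hm : 1 ≤ m) (h0 : J 0) (h1 : ¬ J 1) (hP : ∀ j, P j → 2 ≤ j)
    (he' : e' = m ∨ e' = m + 1) (D : Ty) :
    Dev m J e e' s₀ P (fun j => j < 1) True False (fun D' => D' = D) := by
  refine ⟨fun j => if j = 0 then lf (neg (s₀ 1)) (leafL D (s₀ 1)) else ∅, fun j => ?_, fun j hj => ?_,
    fun _ h => absurd h h1, fun h2 h3 => ?_, fun j hj => ?_, fun s hs hav _ _ => ?_⟩
  · dsimp only
    split_ifs
    · exact lf_card _ _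
    · simp
  · have := hP j hj
    dsimp only
    rw [if_neg (by omega)]; simp
  · dsimp only
    rw [if_neg (by omega)]
  · dsimp only
    rw [if_neg (by omega)]
  · have e1 : s 1 = s₀ 1 := hs 1 (by omega) h1
    have a0 := hav 0 (by omega) h0
    simp only [if_true, lf, mem_insert, mem_singleton, not_or] at a0
    refine ⟨fun _ => by rw [e1]; exact a0.1, fun h => h.elim, fun D' hD' hT => a0.2 ?_⟩
    have := frk_iff'.1 hT.1
    rw [e1, hD'] at this
    exact this

/-- A left fork with both ports. -/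
lemma dev_left_full {i0 : ℕ} (he : e = 0 ∨ e = 1) (he' : e' = m ∨ e' = m + 1) (hP : ∀ j, P j → 2 ≤ j)
    (h1 : 2 ≤ i0) (h2 : i0 ≤ m) (hJ0 : ¬ J i0) (hJL : ∀ j < i0, J j) (D : Ty) :
    Dev m J e e' s₀ P (fun j => j < i0) True False (fun D' => D' = D) := by
  obtain ⟨F, c1, c2, c3⟩ := fork_one (m := m) he D i0 h1 h2 (s₀ i0)
  refine ⟨fun j => if j < i0 ∧ (2 ≤ j ∨ j = e) then F j else ∅, fun j => ?_, fun j hj => ?_,
    fun _ _ => ?_, fun h2 h3 => ?_, fun j hj => ?_, fun s hs hav q1 _ => ?_⟩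
  · dsimp only
    split_ifs
    · exact c1 _
    · simp
  · dsimp only
    split_ifs
    · exact c2 _ (hP j hj)
    · simp
  · dsimp only
    rw [if_neg (by omega)]
  · dsimp only
    rw [if_neg (by omega)]
  · dsimp only
    rw [if_neg (fun h => hj h.1)]
  · refine ⟨fun _ => q1 (hJL 0 (by omega)) (hJL 1 (by omega)), fun h => h.elim, fun D' hD' hT => ?_⟩
    subst hD'
    obtain ⟨j, j1, j2, j3⟩ := c3 s (hs i0 (by omega) hJ0) hT
    have := hav j (by omega) (hJL j j1)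
    dsimp only at this
    rw [if_pos ⟨j1, j2⟩] at this
    exact this j3

/-- A left fork with both ports, two types compatible with the step after `i0`. -/
lemma dev_left_two {i0 : ℕ} (he : e = 0 ∨ e = 1) (he' : e' = m ∨ e' = m + 1)
    (hP : ∀ j, P j → 2 ≤ j ∧ (j < i0 → j + 2 ≤ i0))
    (h1 : 3 ≤ i0) (h2 : i0 < m) (hJ0 : ¬ J i0) (hJL : ∀ j < i0, J j) (q' : Q) (D1 D2 : Ty)
    (hne : D1 ≠ D2) (ha1 : stp (altT D1 i0) (neg (s₀ i0)) q' = true)
    (ha2 : stp (altT D2 i0) (neg (s₀ i0)) q' = true) :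
    Dev m J e e' s₀ P (fun j => j < i0) True False (fun D => D = D1 ∨ D = D2) := by
  obtain ⟨n, rfl⟩ : ∃ n, i0 = n + 1 := ⟨i0 - 1, by omega⟩
  rw [altT_succ] at ha1 ha2
  have hne' : altT D1 n ≠ altT D2 n := fun h => hne (altT_inj h)
  have b1 := two_B1 _ _ _ _ hne' ha1 ha2
  have b2 := two_B2 _ _ _ _ hne' ha1 ha2
  set T1 := altT D1 n with hT1
  set T2 := altT D2 n with hT2
  set a := cmA T1 T2 (s₀ (n + 1)) with ha
  obtain ⟨F, c1, c2, c3⟩ := fork_one (m := m) he D2 n (by omega) (by omega) (otA T2 (s₀ (n + 1)) a)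
  refine ⟨fun j => if j < n + 1 ∧ (2 ≤ j ∨ j = e) then
      (if j = n then {a, otA T1 (s₀ (n + 1)) a} else F j) else ∅, fun j => ?_, fun j hj => ?_,
    fun _ _ => ?_, fun h2 h3 => ?_, fun j hj => ?_, fun s hs hav q1 _ => ?_⟩
  · dsimp only
    split_ifs
    · exact Finset.card_le_two
    · exact c1 _
    · simp
  · obtain ⟨p1, p2⟩ := hP j hj
    dsimp only
    split_ifs with g1 g2
    · omega
    · exact c2 _ p1
    · simp
  · dsimp only
    rw [if_neg (by omega)]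
  · dsimp only
    rw [if_neg (by omega)]
  · dsimp only
    rw [if_neg (fun h => hj h.1)]
  · refine ⟨fun _ => q1 (hJL 0 (by omega)) (hJL 1 (by omega)), fun h => h.elim, fun D hD hT => ?_⟩
    have e0 : s (n + 1) = s₀ (n + 1) := hs _ (by omega) hJ0
    have g1 := mem_pre _ _ _ (hT.2.1 n (by omega) (by omega))
    rw [e0] at g1
    have g2 := hav n (by omega) (hJL n (by omega))
    dsimp only at g2
    rw [if_pos ⟨by omega, Or.inl (by omega)⟩, if_pos rfl] at g2
    simp only [mem_insert, mem_singleton, not_or] at g2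
    rcases hD with rfl | rfl
    · exact g2.2 (b1 _ g1 g2.1)
    · obtain ⟨j, j1, j2, j3⟩ := c3 s (b2 _ g1 g2.1) hT
      have := hav j (by omega) (hJL j (by omega))
      dsimp only at this
      rw [if_pos ⟨by omega, j2⟩, if_neg (by omega)] at this
      exact this j3

/-- The middle part: at most two types survive between two known labels at distance at least two. -/
lemma dev_mid {i0 i1 p p' : ℕ} (he' : e' = m ∨ e' = m + 1)
    (hP : ∀ j, P j ↔ (j = p ∨ j = p')) (hne : p ≠ p') (h0 : 1 ≤ i0) (h : i0 + 2 ≤ i1) (h1 : i1 ≤ m)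
    (hJ0 : ¬ J i0) (hJ1 : ¬ J i1)
    (hadj : ∀ a, 1 ≤ a → a ≤ m → ¬ J a → ∀ t, P t → a + 2 ≤ t ∨ t + 2 ≤ a) :
    ∃ D1 D2, Dev m J e e' s₀ P (fun j => i0 < j ∧ j < i1) False False
      (fun D => D ≠ D1 ∧ D ≠ D2) := by
  classical
  by_cases hex : ∃ q, i0 < q ∧ q < i1 ∧ J q
  · obtain ⟨q, hq1, hq2, hJq⟩ := hex
    obtain ⟨a, r, ha, har, hf0, hf1, hq3, hq4, hrun⟩ :=
      max_run (J := fun j => J j ∧ i0 < j ∧ j < i1) (m := m) (p := q)
        (fun h' => by omega) (fun h' => by omega) (by omega) (by omega) ⟨hJq, hq1, hq2⟩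
    have g1 := hrun (a + 1) (by omega) (by omega)
    have g2 := hrun (a + r) (by omega) (by omega)
    have e1 : ¬ J a := by
      intro h'
      by_cases hai : a = i0
      · exact hJ0 (hai ▸ h')
      · exact hf0 ⟨h', by omega, by omega⟩
    have e2 : ¬ J (a + r + 1) := by
      intro h'
      by_cases hai : a + r + 1 = i1
      · exact hJ1 (hai ▸ h')
      · exact hf1 ⟨h', by omega, by omega⟩
    -- forbidden sets on the block
    obtain ⟨F, D1, D2, hF2, hF1, hF⟩ : ∃ (F : ℕ → Finset Q) (D1 D2 : Ty), (∀ j, (F j).card ≤ 2) ∧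
        (∀ j, P j → a + 1 ≤ j → j ≤ a + r → (F j).card ≤ 1) ∧
        ∀ D, D ≠ D1 → D ≠ D2 → ∀ s : ℕ → Q, s a = s₀ a → s (a + r + 1) = s₀ (a + r + 1) →
          Tight D s m → ∃ j, a + 1 ≤ j ∧ j ≤ a + r ∧ s j ∈ F j := by
      by_cases b1 : a + 1 ≤ p ∧ p ≤ a + r
      · by_cases b2 : a + 1 ≤ p' ∧ p' ≤ a + r
        · have c1 := hadj a ha (by omega) e1 p ((hP p).2 (Or.inl rfl))
          have c2 := hadj a ha (by omega) e1 p' ((hP p').2 (Or.inr rfl))
          have c3 := hadj (a + r + 1) (by omega) (by omega) e2 p ((hP p).2 (Or.inl rfl))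
          have c4 := hadj (a + r + 1) (by omega) (by omega) e2 p' ((hP p').2 (Or.inr rfl))
          obtain ⟨F, D1, D2, hF2, hF1, hF1', hF⟩ := run_sets2 (m := m) (i0 := a) (r := r) ha har (s₀ a)
            (s₀ (a + r + 1)) (p := p) (p' := p') (by omega) (by omega) (by omega) (by omega) hne
          refine ⟨F, D1, D2, hF2, fun j hj _ _ => ?_, hF⟩
          rcases (hP j).1 hj with rfl | rfl
          · exact hF1
          · exact hF1'
        · obtain ⟨F, D1, D2, hF2, hF1, hF⟩ := run_sets ha har (s₀ a) (s₀ (a + r + 1)) b1.1 b1.2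
          refine ⟨F, D1, D2, hF2, fun j hj j1 j2 => ?_, hF⟩
          rcases (hP j).1 hj with rfl | rfl
          · exact hF1
          · exact absurd ⟨j1, j2⟩ b2
      · by_cases b2 : a + 1 ≤ p' ∧ p' ≤ a + r
        · obtain ⟨F, D1, D2, hF2, hF1, hF⟩ := run_sets ha har (s₀ a) (s₀ (a + r + 1)) b2.1 b2.2
          refine ⟨F, D1, D2, hF2, fun j hj j1 j2 => ?_, hF⟩
          rcases (hP j).1 hj with rfl | rfl
          · exact absurd ⟨j1, j2⟩ b1
          · exact hF1
        · obtain ⟨F, D1, D2, hF2, hF1, hF⟩ := run_sets ha har (s₀ a) (s₀ (a + r + 1)) hq3 hq4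
          refine ⟨F, D1, D2, hF2, fun j hj j1 j2 => ?_, hF⟩
          rcases (hP j).1 hj with rfl | rfl
          · exact absurd ⟨j1, j2⟩ b1
          · exact absurd ⟨j1, j2⟩ b2
    refine ⟨D1, D2, fun j => if a + 1 ≤ j ∧ j ≤ a + r then F j else ∅, fun j => ?_, fun j hj => ?_,
      fun _ _ => ?_, fun _ _ => ?_, fun j hj => ?_, fun s hs hav _ _ => ?_⟩
    · dsimp only
      split_ifs
      · exact hF2 _
      · simp
    · dsimp only
      split_ifs with b
      · exact hF1 j hj b.1 b.2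
      · simp
    · dsimp only
      rw [if_neg (by omega)]
    · dsimp only
      rw [if_neg (by omega)]
    · dsimp only
      rw [if_neg (fun h' => hj ⟨(hrun j h'.1 h'.2).2.1, (hrun j h'.1 h'.2).2.2⟩)]
    · refine ⟨fun h => h.elim, fun h => h.elim, fun D hD hT => ?_⟩
      obtain ⟨j, j1, j2, j3⟩ := hF D hD.1 hD.2 s (hs _ (by omega) e1) (hs _ (by omega) e2) hT
      have g3 := hrun j j1 j2
      have := hav j (by omega) g3.1
      dsimp only at this
      rw [if_pos ⟨j1, j2⟩] at this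
      exact this j3
  · push Not at hex
    obtain ⟨D1, D2, hD⟩ := two_steps (neg (s₀ i0)) (s₀ (i0 + 1)) (neg (s₀ (i0 + 2)))
    have e1 : ¬ J (i0 + 1) := hex (i0 + 1) (by omega) (by omega)
    have e2 : ¬ J (i0 + 2) := by
      by_cases h2 : i0 + 2 = i1
      · rw [h2]; exact hJ1
      · exact hex (i0 + 2) (by omega) (by omega)
    have hh : ∀ D D' : Ty, D ≠ altT D' i0 → altT D i0 ≠ D' := by
      intro D D' h2 h3
      apply h2
      rw [← h3]
      unfold altT
      split_ifs <;> simp [co_co]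
    refine ⟨altT D1 i0, altT D2 i0, fun _ => ∅, fun _ => by simp, fun _ _ => by simp,
      fun _ _ => rfl, fun _ _ => rfl, fun _ _ => rfl, fun s hs _ _ _ => ⟨fun h => h.elim,
      fun h => h.elim, fun D hD' hT => ?_⟩⟩
    apply hD (altT D i0) (hh _ _ hD'.1) (hh _ _ hD'.2)
    have g1 := hT.2.1 i0 (by omega) (by omega)
    have g2 := hT.2.1 (i0 + 1) (by omega) (by omega)
    have f0 : s i0 = s₀ i0 := hs _ (by omega) hJ0
    have f1 : s (i0 + 1) = s₀ (i0 + 1) := hs _ (by omega) e1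
    have f2 : s (i0 + 2) = s₀ (i0 + 2) := hs _ (by omega) e2
    rw [f0, f1] at g1
    rw [altT_succ, show i0 + 1 + 1 = i0 + 2 by rfl, f1, f2, stp_neg1] at g2
    exact ⟨g1, g2⟩

/-- One type is killed at a port next to a known label. -/
lemma dev_one {a : ℕ} (he' : e' = m ∨ e' = m + 1) (h1 : 1 ≤ a) (h2 : a + 2 ≤ m)
    (hJ0 : ¬ J a) (hJ1 : J (a + 1)) (hP : ¬ P (a + 1)) (D : Ty) :
    Dev m J e e' s₀ P (fun j => j = a + 1) False False (fun D' => D' = D) := by
  refine ⟨fun j => if j = a + 1 then nxt (altT D a) (neg (s₀ a)) else ∅, fun j => ?_, fun j hj => ?_,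
    fun _ _ => ?_, fun _ _ => ?_, fun j hj => ?_, fun s hs hav _ _ => ⟨fun h => h.elim,
      fun h => h.elim, fun D' hD' hT => ?_⟩⟩
  · dsimp only
    split_ifs
    · exact nxt_card _ _
    · simp
  · dsimp only
    rw [if_neg (fun h : j = a + 1 => hP (h ▸ hj))]; simp
  · dsimp only
    rw [if_neg (by omega)]
  · dsimp only
    rw [if_neg (by omega)]
  · dsimp only
    rw [if_neg hj]
  · have g1 := hT.2.1 a h1 (by omega)
    have g2 := hav (a + 1) (by omega) hJ1
    dsimp only at g2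
    rw [if_pos rfl, mem_nxt] at g2
    rw [hs a (by omega) hJ0, hD'] at g1
    exact g2 g1

/-- The types incompatible with a known step. -/
lemma dev_step {i : ℕ} (h1 : 1 ≤ i) (h2 : i < m) (hJ0 : ¬ J i) (hJ1 : ¬ J (i + 1)) :
    Dev m J e e' s₀ P (fun _ => False) False False
      (fun D => stp (altT D i) (neg (s₀ i)) (s₀ (i + 1)) = false) := by
  refine Dev.nil fun s hs _ _ => ⟨fun h => h.elim, fun h => h.elim, fun D hD hT => ?_⟩
  have g1 := hT.2.1 i h1 h2
  rw [hs i (by omega) hJ0, hs (i + 1) (by omega) hJ1, hD] at g1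
  exact absurd g1 (by simp)

end CLB.H57
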