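import Pool.Agent.Helper95_CLB.StatQ

/-!
Kill sets for a run of ports between two known labels with TWO light ports, neither the first nor the
last port of the run.
-/

set_option autoImplicit false

namespace CLB.H57

open Finset
open CLB.H95
open H3DA (Q neg nr)

/-- Forbidden sets for a run of `r` ports between the labels `q` and `q'`, places `p`, `p'` are light. -/
def RK2 (r : ℕ) (q q' : Q) (p p' : ℕ) : Prop :=
  ∃ (F : ℕ → Finset Q) (D1 D2 : Ty), (∀ t, (F t).card ≤ 2) ∧ (F p).card ≤ 1 ∧ (F p').card ≤ 1 ∧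
    ∀ D, D ≠ D1 → D ≠ D2 → ∀ s : ℕ → Q, s 0 = q → s (r + 1) = q' →
      (∀ t ≤ r, stp (al D t) (s t) (s (t + 1)) = true) → ∃ t, 1 ≤ t ∧ t ≤ r ∧ s t ∈ F t

lemma entry_kill {r : ℕ} {q q' : Q} {c a b : ℕ} {l : List ℕ} (hg : good (c, 1, a, b, l) = true)
    (hlen : l.length = r) (hq : lab c = add q q') :
    ∀ D, D ≠ ty a → D ≠ ty b → ∀ s : ℕ → Q, s 0 = q → s (r + 1) = q' →
      (∀ t ≤ r, stp (al D t) (s t) (s (t + 1)) = true) → ∃ t, 1 ≤ t ∧ t ≤ r ∧ s t ∈ shF q l t := by
  intro D hD1 hD2 s hs0 hs1 hst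
  by_contra hcon
  push Not at hcon
  unfold good at hg
  simp only [List.all_eq_true, Bool.or_eq_true, beq_iff_eq, Bool.not_eq_true'] at hg
  obtain ⟨T, hT, hTD⟩ := ty_surj D
  rcases hg T hT with (h | h) | h
  · exact hD1 (by rw [← hTD, h])
  · exact hD2 (by rw [← hTD, h])
  · have h1 : runTo (lab c) (ty T) ((fun t => add q (s t)) 0) l = true := by
      refine runTo_true (s := fun t => add q (s t)) (k := 0) (fun t ht => ?_) ?_ (fun t ht => ?_)
      · simp only [Nat.zero_add]
        rw [add_stp, hTD]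
        exact hst t (by omega)
      · simp only [Nat.zero_add]
        rw [hlen, hs1, hq]
      · simp only [Nat.zero_add]
        have := hcon (t + 1) (by omega) (by omega)
        rw [mem_shF ht] at this
        simpa using this
    simp only [hs0, add_self_zero] at h1
    rw [h1] at h
    exact absurd h (by simp)

lemma win_kill {q : Q} {l : List ℕ} {D : Ty} (h : runFree D (false, false, false) l = false)
    {s : ℕ → Q} (hs0 : s 0 = q) (hst : ∀ t < l.length, stp (al D t) (s t) (s (t + 1)) = true) :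
    ∃ t, 1 ≤ t ∧ t ≤ l.length ∧ s t ∈ shF q l t := by
  by_contra hcon
  push Not at hcon
  have h1 : runFree D ((fun t => add q (s t)) 0) l = true := by
    refine runFree_true (s := fun t => add q (s t)) (k := 0) (fun t ht => ?_) (fun t ht => ?_)
    · simp only [Nat.zero_add]
      rw [add_stp]
      exact hst t ht
    · simp only [Nat.zero_add]
      have := hcon (t + 1) (by omega) (by omega)
      rw [mem_shF ht] at this
      simpa using this
  simp only [hs0, add_self_zero] at h1
  rw [h1] at h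
  exact absurd h (by simp)

/-- The check of a list of sets. -/
def okl (l : List ℕ) : Bool := l.all (fun n => decide (n < 256) && decide (sz n ≤ 2))

lemma okl_iff {l : List ℕ} (h : okl l = true) : ∀ n ∈ l, n < 256 ∧ sz n ≤ 2 := by
  unfold okl at h
  simpa only [List.all_eq_true, Bool.and_eq_true, decide_eq_true_eq] using h

lemma shF_card1 {q : Q} {l : List ℕ} (hl : okl l = true) {t : ℕ} (h : sz (l.getD (t - 1) 0) ≤ 1) :
    (shF q l t).card ≤ 1 := by
  have hl := okl_iff hl
  unfold shF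
  by_cases h1 : 1 ≤ t ∧ t ≤ l.length
  · rw [if_pos h1]
    refine le_trans Finset.card_image_le ?_
    have hlt : t - 1 < l.length := by omega
    rw [List.getD_eq_getElem?_getD, List.getElem?_eq_getElem hlt, Option.getD_some] at h ⊢
    obtain ⟨h2, h3⟩ := hl _ (List.getElem_mem hlt)
    rw [sz_card _ h2]; exact h
  · rw [if_neg h1]; simp

/-- Runs of four ports. -/
def two4 : List (ℕ × ℕ × ℕ × List ℕ) :=
  [(0, 2, 4, [0, 0, 0, 3]), (1, 3, 5, [0, 0, 0, 3]), (2, 1, 5, [0, 0, 0, 5]), (3, 3, 4, [0, 0, 0, 130]),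
   (4, 1, 3, [0, 0, 0, 17]), (5, 2, 5, [0, 0, 0, 130]), (6, 0, 5, [0, 0, 0, 132]),
   (7, 0, 2, [0, 0, 0, 136])]

/-- Runs of five ports. -/
def two5 : List (ℕ × ℕ × ℕ × List ℕ) :=
  [(0, 0, 1, [0, 0, 0, 0, 0]), (1, 3, 5, [5, 0, 0, 0, 9]), (2, 1, 5, [3, 0, 0, 0, 9]),
   (3, 1, 2, [3, 0, 0, 0, 10]), (4, 1, 3, [3, 0, 0, 0, 33]), (5, 1, 4, [3, 0, 0, 0, 34]),
   (6, 3, 4, [5, 0, 0, 0, 68]), (7, 0, 1, [0, 0, 0, 0, 0])]

/-- The check of a table. -/
def tabok (r : ℕ) (tab : List (ℕ × ℕ × ℕ × List ℕ)) : Bool :=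
  (List.range 8).all (fun c => tab.any (fun e => e.1 == c && good (e.1, 1, e.2.1, e.2.2.1, e.2.2.2) &&
    okl e.2.2.2 && e.2.2.2.length == r &&
    (List.range r).all (fun i => i == 0 || i + 1 == r || e.2.2.2.getD i 0 == 0)))

lemma two4_ok : tabok 4 two4 = true := by decide +kernel

lemma two5_ok : tabok 5 two5 = true := by decide +kernel

lemma RK2_tab {r : ℕ} {tab : List (ℕ × ℕ × ℕ × List ℕ)} (h : tabok r tab = true) (q q' : Q) {p p' : ℕ}
    (hp : 2 ≤ p) (hpr : p + 1 ≤ r) (hp' : 2 ≤ p') (hpr' : p' + 1 ≤ r) : RK2 r q q' p p' := by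
  unfold tabok at h
  simp only [List.all_eq_true, List.any_eq_true, Bool.and_eq_true, Bool.or_eq_true, beq_iff_eq,
    List.mem_range] at h
  obtain ⟨⟨c, a, b, l⟩, -, ⟨⟨⟨h1, h2⟩, h3⟩, h4⟩, h5⟩ := h (cd (add q q')) (List.mem_range.1 (lab_cd _).2)
  simp only at h1 h2 h3 h4 h5
  have key : ∀ t, 2 ≤ t → t + 1 ≤ r → (shF q l t).card ≤ 1 := by
    intro t ht htr
    refine shF_card1 h3 ?_
    rcases h5 (t - 1) (by omega) with (h6 | h6) | h6
    · omega
    · omega
    · rw [h6]; decide
  exact ⟨shF q l, ty a, ty b, shF_card (okl_iff h3), key p hp hpr, key p' hp' hpr',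
    entry_kill h2 h4 (by rw [h1]; exact (lab_cd _).1)⟩

/-- Two windows at the ends of the run. -/
lemma RK2_win {r : ℕ} {q q' : Q} {p p' : ℕ} {lL lR : List ℕ} (hlen : lL.length + lR.length ≤ r)
    (hL : okl lL = true) (hR : okl lR = true) (D1 D2 : Ty)
    (hall : ∀ D, D ≠ D1 → D ≠ D2 → runFree D (false, false, false) lL = false ∨
      runFree (al D r) (false, false, false) lR = false)
    (hp : p ≤ lL.length → sz (lL.getD (p - 1) 0) ≤ 1)
    (hpr : lL.length < p → sz (lR.getD (r + 1 - p - 1) 0) ≤ 1)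
    (hp' : p' ≤ lL.length → sz (lL.getD (p' - 1) 0) ≤ 1)
    (hpr' : lL.length < p' → sz (lR.getD (r + 1 - p' - 1) 0) ≤ 1) : RK2 r q q' p p' := by
  refine ⟨fun t => if t ≤ lL.length then shF q lL t else shF q' lR (r + 1 - t), D1, D2, fun t => ?_, ?_,
    ?_, fun D h1 h2 s hs0 hs1 hst => ?_⟩
  · dsimp only
    split_ifs
    · exact shF_card (okl_iff hL) _
    · exact shF_card (okl_iff hR) _
  · dsimp only
    split_ifs with h
    · exact shF_card1 hL (hp h)
    · exact shF_card1 hR (hpr (by omega))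
  · dsimp only
    split_ifs with h
    · exact shF_card1 hL (hp' h)
    · exact shF_card1 hR (hpr' (by omega))
  · rcases hall D h1 h2 with h | h
    · obtain ⟨t, t1, t2, t3⟩ := win_kill h hs0 (fun t ht => hst t (by omega))
      refine ⟨t, t1, by omega, ?_⟩
      dsimp only
      rw [if_pos t2]; exact t3
    · obtain ⟨t, t1, t2, t3⟩ := win_kill (s := fun t => s (r + 1 - t)) h (by simpa using hs1)
        (fun t ht => by
          rw [al_al, stp_symm]
          have := hst (r - t) (by omega)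
          rw [al_congr D (show (r + t) % 2 = (r - t) % 2 by omega)]
          rw [show r + 1 - (t + 1) = r - t by omega, show r + 1 - t = r - t + 1 by omega]
          exact this)
      refine ⟨r + 1 - t, by omega, by omega, ?_⟩
      dsimp only
      rw [if_neg (by omega), show r + 1 - (r + 1 - t) = t by omega]
      exact t3

lemma winL2 : ∀ D : Ty, D = (0, true) ∨ D = (1, true) →
    runFree D (false, false, false) [3, 72] = false := by decide
lemma winL3 : ∀ D : Ty, D = (0, true) ∨ D = (1, true) →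
    runFree D (false, false, false) [3, 8, 80] = false := by decide
lemma winL4 : ∀ D : Ty, D = (0, true) ∨ D = (1, true) →
    runFree D (false, false, false) [3, 8, 16, 132] = false := by decide
lemma winE2 : ∀ D : Ty, D = (2, true) ∨ D = (1, false) →
    runFree D (false, false, false) [17, 10] = false := by decide
lemma winE3 : ∀ D : Ty, D = (2, true) ∨ D = (1, false) →
    runFree D (false, false, false) [17, 2, 132] = false := by decide
lemma winE4 : ∀ D : Ty, D = (2, true) ∨ D = (1, false) →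
    runFree D (false, false, false) [17, 2, 4, 160] = false := by decide
lemma winO2 : ∀ D : Ty, D = (2, true) ∨ D = (1, true) →
    runFree D (false, false, false) [5, 96] = false := by decide
lemma winO3 : ∀ D : Ty, D = (2, true) ∨ D = (1, true) →
    runFree D (false, false, false) [5, 32, 68] = false := by decide
lemma winO4 : ∀ D : Ty, D = (2, true) ∨ D = (1, true) →
    runFree D (false, false, false) [5, 32, 4, 144] = false := by decide

lemma even_all : ∀ D : Ty, D ≠ (0, false) → D ≠ (2, false) →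
    (D = (0, true) ∨ D = (1, true)) ∨ (D = (2, true) ∨ D = (1, false)) := by decide

lemma odd_all : ∀ D : Ty, D ≠ (0, false) → D ≠ (2, true) →
    (D = (0, true) ∨ D = (1, true)) ∨ (co D = (2, true) ∨ co D = (1, true)) := by decide

/-- Long runs, the windows on the right are given. -/
lemma RK2_six {r : ℕ} (hr : 6 ≤ r) (q q' : Q) {p p' : ℕ} (hp : 2 ≤ p) (hpp : p < p')
    (hpr' : p' + 1 ≤ r) (D1 D2 : Ty) {R2 R3 R4 : List ℕ} (n2 : R2.length = 2) (n3 : R3.length = 3)
    (n4 : R4.length = 4) (o2 : okl R2 = true) (o3 : okl R3 = true) (o4 : okl R4 = true)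
    (s3 : sz (R3.getD 1 0) ≤ 1) (s4 : sz (R4.getD 1 0) ≤ 1) (s4' : sz (R4.getD 2 0) ≤ 1)
    (hall : ∀ D, D ≠ D1 → D ≠ D2 → (D = (0, true) ∨ D = (1, true)) ∨
      (runFree (al D r) (false, false, false) R2 = false ∧
      runFree (al D r) (false, false, false) R3 = false ∧
      runFree (al D r) (false, false, false) R4 = false)) : RK2 r q q' p p' := by
  have hout : ∀ (l : List ℕ) (i : ℕ), l.length ≤ i → sz (l.getD i 0) ≤ 1 := by
    intro l i hi
    rw [List.getD_eq_default _ _ hi]; decide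
  have k1 : ∀ (l : List ℕ), sz (l.getD 1 0) ≤ 1 → ∀ i, i = 1 → sz (l.getD i 0) ≤ 1 := by
    intro l h i hi; rw [hi]; exact h
  have k2 : ∀ (l : List ℕ), sz (l.getD 2 0) ≤ 1 → ∀ i, i = 2 → sz (l.getD i 0) ≤ 1 := by
    intro l h i hi; rw [hi]; exact h
  have h2 : ∀ D, D ≠ D1 → D ≠ D2 → ∀ L, (∀ D : Ty, D = (0, true) ∨ D = (1, true) →
      runFree D (false, false, false) L = false) → runFree D (false, false, false) L = false ∨
      runFree (al D r) (false, false, false) R2 = false := by
    intro D a1 a2 L hL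
    rcases hall D a1 a2 with h | h
    · exact Or.inl (hL D h)
    · exact Or.inr h.1
  have h3 : ∀ D, D ≠ D1 → D ≠ D2 → ∀ L, (∀ D : Ty, D = (0, true) ∨ D = (1, true) →
      runFree D (false, false, false) L = false) → runFree D (false, false, false) L = false ∨
      runFree (al D r) (false, false, false) R3 = false := by
    intro D a1 a2 L hL
    rcases hall D a1 a2 with h | h
    · exact Or.inl (hL D h)
    · exact Or.inr h.2.1
  have h4 : ∀ D, D ≠ D1 → D ≠ D2 → ∀ L, (∀ D : Ty, D = (0, true) ∨ D = (1, true) →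
      runFree D (false, false, false) L = false) → runFree D (false, false, false) L = false ∨
      runFree (al D r) (false, false, false) R4 = false := by
    intro D a1 a2 L hL
    rcases hall D a1 a2 with h | h
    · exact Or.inl (hL D h)
    · exact Or.inr h.2.2
  have t3 : sz (([3, 8, 80] : List ℕ).getD 1 0) ≤ 1 := by decide
  have t4 : sz (([3, 8, 16, 132] : List ℕ).getD 1 0) ≤ 1 := by decide
  have t4' : sz (([3, 8, 16, 132] : List ℕ).getD 2 0) ≤ 1 := by decide
  have l2 : ([3, 72] : List ℕ).length = 2 := rfl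
  have l3 : ([3, 8, 80] : List ℕ).length = 3 := rfl
  have l4 : ([3, 8, 16, 132] : List ℕ).length = 4 := rfl
  by_cases a1 : p = 2
  · by_cases a2 : p' = 3
    · exact RK2_win (by omega) (by decide) o2 D1 D2 (fun D b1 b2 => h2 D b1 b2 _ winL4)
        (fun _ => k1 _ t4 _ (by omega)) (fun h => absurd h (by omega)) (fun _ => k2 _ t4' _ (by omega))
        (fun h => absurd h (by omega))
    · by_cases a3 : p' + 1 = r
      · exact RK2_win (by omega) (by decide) o3 D1 D2 (fun D b1 b2 => h3 D b1 b2 _ winL3)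
          (fun _ => k1 _ t3 _ (by omega)) (fun h => absurd h (by omega)) (fun h => absurd h (by omega))
          (fun _ => k1 _ s3 _ (by omega))
      · exact RK2_win (by omega) (by decide) o2 D1 D2 (fun D b1 b2 => h2 D b1 b2 _ winL3)
          (fun _ => k1 _ t3 _ (by omega)) (fun h => absurd h (by omega)) (fun h => absurd h (by omega))
          (fun _ => hout _ _ (by omega))
  · by_cases a2 : p' + 1 = r
    · by_cases a3 : p + 2 = r
      · exact RK2_win (by omega) (by decide) o4 D1 D2 (fun D b1 b2 => h4 D b1 b2 _ winL2)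
          (fun h => absurd h (by omega)) (fun _ => k2 _ s4' _ (by omega)) (fun h => absurd h (by omega))
          (fun _ => k1 _ s4 _ (by omega))
      · exact RK2_win (by omega) (by decide) o3 D1 D2 (fun D b1 b2 => h3 D b1 b2 _ winL2)
          (fun h => absurd h (by omega)) (fun _ => hout _ _ (by omega)) (fun h => absurd h (by omega))
          (fun _ => k1 _ s3 _ (by omega))
    · exact RK2_win (by omega) (by decide) o2 D1 D2 (fun D b1 b2 => h2 D b1 b2 _ winL2)
        (fun h => absurd h (by omega)) (fun _ => hout _ _ (by omega)) (fun h => absurd h (by omega))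
        (fun _ => hout _ _ (by omega))

/-- Long runs. -/
lemma RK2_long {r : ℕ} (hr : 6 ≤ r) (q q' : Q) {p p' : ℕ} (hp : 2 ≤ p) (hpp : p < p')
    (hpr' : p' + 1 ≤ r) : RK2 r q q' p p' := by
  rcases Nat.mod_two_eq_zero_or_one r with hr2 | hr2
  · refine RK2_six hr q q' hp hpp hpr' (0, false) (2, false) (R2 := [17, 10]) (R3 := [17, 2, 132])
      (R4 := [17, 2, 4, 160]) rfl rfl rfl (by decide) (by decide) (by decide) (by decide) (by decide)
      (by decide) (fun D h1 h2 => ?_)
    rw [al_even D r hr2]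
    rcases even_all D h1 h2 with h | h
    · exact Or.inl h
    · exact Or.inr ⟨winE2 D h, winE3 D h, winE4 D h⟩
  · refine RK2_six hr q q' hp hpp hpr' (0, false) (2, true) (R2 := [5, 96]) (R3 := [5, 32, 68])
      (R4 := [5, 32, 4, 144]) rfl rfl rfl (by decide) (by decide) (by decide) (by decide) (by decide)
      (by decide) (fun D h1 h2 => ?_)
    have e : al D r = co D := by unfold al; rw [if_neg (by omega)]
    rw [e]
    rcases odd_all D h1 h2 with h | h
    · exact Or.inl h
    · exact Or.inr ⟨winO2 _ h, winO3 _ h, winO4 _ h⟩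

lemma RK2_lt {r : ℕ} (q q' : Q) {p p' : ℕ} (hp : 2 ≤ p) (hpp : p < p') (hpr' : p' + 1 ≤ r) :
    RK2 r q q' p p' := by
  by_cases h4 : r = 4
  · subst h4; exact RK2_tab two4_ok q q' hp (by omega) (by omega) hpr'
  · by_cases h5 : r = 5
    · subst h5; exact RK2_tab two5_ok q q' hp (by omega) (by omega) hpr'
    · exact RK2_long (by omega) q q' hp hpp hpr'

/-- The run lemma with two light ports. -/
theorem run_kill2 (r : ℕ) (q q' : Q) {p p' : ℕ} (hp : 2 ≤ p) (hpr : p + 1 ≤ r) (hp' : 2 ≤ p')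
    (hpr' : p' + 1 ≤ r) (hne : p ≠ p') : RK2 r q q' p p' := by
  rcases Nat.lt_or_gt_of_ne hne with h | h
  · exact RK2_lt q q' hp h hpr'
  · obtain ⟨F, D1, D2, h1, h2, h3, h4⟩ := RK2_lt (r := r) q q' hp' h hpr
    exact ⟨F, D1, D2, h1, h3, h2, h4⟩

/-- Kill sets for a whole run with two light ports, in terms of the labels of the ports. -/
lemma run_sets2 {m i0 r : ℕ} (h0 : 1 ≤ i0) (h1 : i0 + r + 1 ≤ m) (q q' : Q) {p p' : ℕ}
    (hp : i0 + 2 ≤ p) (hpr : p + 1 ≤ i0 + r) (hp' : i0 + 2 ≤ p') (hpr' : p' + 1 ≤ i0 + r)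
    (hne : p ≠ p') : ∃ (F : ℕ → Finset Q) (D1 D2 : Ty), (∀ j, (F j).card ≤ 2) ∧ (F p).card ≤ 1 ∧
    (F p').card ≤ 1 ∧
    ∀ D, D ≠ D1 → D ≠ D2 → ∀ s : ℕ → Q, s i0 = q → s (i0 + r + 1) = q' → Tight D s m →
      ∃ j, i0 + 1 ≤ j ∧ j ≤ i0 + r ∧ s j ∈ F j := by
  obtain ⟨F, D1, D2, hF2, hF1, hF1', hF⟩ := run_kill2 r q (sg (r + 1) q') (p := p - i0)
    (p' := p' - i0) (by omega) (by omega) (by omega) (by omega) (by omega)
  refine ⟨fun j => (F (j - i0)).image (sg (j - i0)), altT D1 i0, altT D2 i0, fun j => ?_, ?_, ?_, ?_⟩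
  · exact le_trans Finset.card_image_le (hF2 _)
  · exact le_trans Finset.card_image_le hF1
  · exact le_trans Finset.card_image_le hF1'
  · intro D hD1 hD2 s hs0 hs1 hT
    have hh : ∀ D', altT D i0 ≠ D' ∨ D = altT D' i0 := by
      intro D'
      by_cases h : altT D i0 = D'
      · right
        rw [← h]
        unfold altT
        split_ifs <;> simp [co_co]
      · exact Or.inl h
    obtain ⟨t, ht1, ht2, ht3⟩ := hF (altT D i0) ((hh D1).resolve_right hD1)
      ((hh D2).resolve_right hD2) (fun t => sg t (s (i0 + t))) (by simp [sg_even, hs0])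
      (by rw [← hs1]; rfl) (hT.walk h0 h1)
    refine ⟨i0 + t, by omega, by omega, ?_⟩
    rw [mem_image]
    refine ⟨sg t (s (i0 + t)), ?_, ?_⟩
    · rw [show i0 + t - i0 = t by omega]; exact ht3
    · rw [show i0 + t - i0 = t by omega]; exact sg_sg _ _

end CLB.H57
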