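import Pool.Agent.Helper57_DA.Dev
import Pool.Agent.Helper95_CLB.Forb

/-!
The static kill lemma with two light inner positions, neither of them next to the vertex of a known port.
-/

set_option autoImplicit false

set_option linter.unusedVariables false

namespace CLB.H57

open Finset
open CLB.H95
open H3DA (Q neg nr)
open CLB.H3 (CExt)

/-- Static kill sets with two light positions; `e`, `e'` are the earlier ports of the forks. -/
def KillsQ2 (m : ℕ) (J : ℕ → Prop) (e e' : ℕ) (s₀ : ℕ → Q) (p p' : ℕ) : Prop :=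
  ∃ F : ℕ → Finset Q, (∀ j, (F j).card ≤ 2) ∧ (F p).card ≤ 1 ∧ (F p').card ≤ 1 ∧
    (J 0 → J 1 → F (1 - e) = ∅) ∧ (J m → J (m + 1) → F (2 * m + 1 - e') = ∅) ∧
    ∀ s : ℕ → Q, (∀ j ≤ m + 1, ¬ J j → s j = s₀ j) → (∀ j ≤ m + 1, J j → s j ∉ F j) →
      (J 0 → J 1 → s 0 ≠ neg (s 1)) → (J m → J (m + 1) → s m ≠ neg (s (m + 1))) → CExt m s

variable {m : ℕ} {J : ℕ → Prop} {s₀ : ℕ → Q} {e e' p p' : ℕ} {P S : ℕ → Prop} {A B : Prop}
  {K : Ty → Prop}

lemma Dev.fin (hm : 1 ≤ m) (h : Dev m J e e' s₀ P S A B K) (hA : A) (hB : B) (hK : ∀ D, K D)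
    (hp : P p) (hp' : P p') : KillsQ2 m J e e' s₀ p p' := by
  obtain ⟨F, c1, c2, c3, c4, _, c6⟩ := h
  refine ⟨F, c1, c2 p hp, c2 p' hp', c3, c4, fun s a b c d => ?_⟩
  obtain ⟨g1, g2, g3⟩ := c6 s a b c d
  rw [cext_iff hm]
  exact ⟨g1 hA, g2 hB, fun D => g3 D (hK D)⟩

/-- One type is killed on the left of the first known position. -/
lemma left_single {i0 : ℕ} (he : e = 0 ∨ e = 1) (he' : e' = m ∨ e' = m + 1) (hP : ∀ j, P j → 2 ≤ j)
    (h1 : 1 ≤ i0) (h2 : i0 ≤ m) (hJ0 : ¬ J i0) (hJL : ∀ j < i0, J j) (D : Ty) :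
    Dev m J e e' s₀ P (fun j => j < i0) True False (fun D' => D' = D) := by
  by_cases h3 : i0 = 1
  · subst h3
    exact dev_left_mixed h2 (hJL 0 (by omega)) hJ0 hP he' D
  · exact dev_left_full he he' hP (by omega) h2 hJ0 hJL D

/-- One type is killed on the right of the last known position. -/
lemma right_single {i1 : ℕ} (he : e = 0 ∨ e = 1) (he' : e' = m ∨ e' = m + 1)
    (hP : ∀ j, P j → j + 1 ≤ m) (h1 : 1 ≤ i1) (h2 : i1 ≤ m) (hJ1 : ¬ J i1)
    (hJR : ∀ j, i1 < j → j ≤ m + 1 → J j) (D : Ty) :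
    Dev m J e e' s₀ P (fun j => i1 < j) False True (fun D' => D' = D) := by
  refine Dev.rev (by omega) he he' (fun j hj => by have := hP j hj; omega)
    (S' := fun j => j < m + 1 - i1) (Dev.mono (left_single (by omega) (by omega) ?_ (by omega) (by omega)
      ?_ ?_ (altT D (m + 1))) id id ?_) ?_
  · intro j hj
    have := hP _ hj
    omega
  · show ¬ J (m + 1 - (m + 1 - i1))
    rwa [show m + 1 - (m + 1 - i1) = i1 by omega]
  · intro j hj
    exact hJR _ (by omega) (by omega)
  · intro D' hD'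
    rw [← hD', altT_altT']
  · intro j h3 h4
    omega

/-- Two types are killed on the right. -/
lemma dev_right_two {i1 : ℕ} (he : e = 0 ∨ e = 1) (he' : e' = m ∨ e' = m + 1)
    (hP : ∀ j, P j → j + 1 ≤ m ∧ (i1 < j → i1 + 2 ≤ j)) (h1 : 2 ≤ i1) (h2 : i1 + 2 ≤ m) (hJ1 : ¬ J i1)
    (hJR : ∀ j, i1 < j → j ≤ m + 1 → J j) (q' : Q) (D1 D2 : Ty) (hne : D1 ≠ D2)
    (ha1 : stp (altT D1 (i1 - 1)) (neg q') (s₀ i1) = true)
    (ha2 : stp (altT D2 (i1 - 1)) (neg q') (s₀ i1) = true) :
    Dev m J e e' s₀ P (fun j => i1 < j) False True (fun D => D = D1 ∨ D = D2) := by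
  have hc : ∀ D : Ty, altT (altT D (m + 1)) (m + 1 - i1) = altT D (i1 - 1) := by
    intro D
    rw [altT_altT D m _ (by omega), show m - (m + 1 - i1) = i1 - 1 by omega]
  have hs : s₀ (m + 1 - (m + 1 - i1)) = s₀ i1 := by rw [show m + 1 - (m + 1 - i1) = i1 by omega]
  refine Dev.rev (by omega) he he' (fun j hj => by have := hP j hj; omega)
    (S' := fun j => j < m + 1 - i1) (Dev.mono (dev_left_two (by omega) (by omega) ?_ (by omega)
      (by omega) ?_ ?_ q' (altT D1 (m + 1)) (altT D2 (m + 1)) (fun h => hne (altT_inj h)) ?_ ?_)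
      id id ?_) ?_
  · intro j hj
    have := hP _ hj
    omega
  · show ¬ J (m + 1 - (m + 1 - i1))
    rwa [show m + 1 - (m + 1 - i1) = i1 by omega]
  · intro j hj
    exact hJR _ (by omega) (by omega)
  · rw [hc, stp_flip, hs]; exact ha1
  · rw [hc, stp_flip, hs]; exact ha2
  · rintro D' (h | h)
    · left; rw [← h, altT_altT']
    · right; rw [← h, altT_altT']
  · intro j h3 h4
    omega

/-- The first known position. -/
lemma first_unseen (h0 : J 0) (hex : ∃ i, 1 ≤ i ∧ i ≤ m ∧ ¬ J i) :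
    ∃ i0, 1 ≤ i0 ∧ i0 ≤ m ∧ ¬ J i0 ∧ (∀ j < i0, J j) ∧ ∀ i, ¬ J i → i0 ≤ i := by
  classical
  obtain ⟨i, hi1, hi2, hi3⟩ := hex
  have hex' : ∃ i, ¬ J i := ⟨i, hi3⟩
  have hle : Nat.find hex' ≤ i := Nat.find_min' hex' hi3
  refine ⟨Nat.find hex', ?_, by omega, Nat.find_spec hex',
    fun j hj => not_not.1 (Nat.find_min hex' hj), fun i h => Nat.find_min' hex' h⟩
  rcases Nat.eq_zero_or_pos (Nat.find hex') with h | h
  · exfalso
    have := Nat.find_spec hex'
    rw [h] at this
    exact this h0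
  · exact h

/-- The last known position. -/
lemma last_unseen (h0 : J (m + 1)) (hex : ∃ i, 1 ≤ i ∧ i ≤ m ∧ ¬ J i) :
    ∃ i1, 1 ≤ i1 ∧ i1 ≤ m ∧ ¬ J i1 ∧ (∀ j, i1 < j → j ≤ m + 1 → J j) ∧
      ∀ i ≤ m, ¬ J i → i ≤ i1 := by
  obtain ⟨i, hi1, hi2, hi3⟩ := hex
  obtain ⟨j, j1, j2, j3, j4, j5⟩ := first_unseen (J := fun j => J (m + 1 - j)) (m := m) h0
    ⟨m + 1 - i, by omega, by omega, by rwa [show m + 1 - (m + 1 - i) = i by omega]⟩
  refine ⟨m + 1 - j, by omega, by omega, j3, fun t t1 t2 => ?_, fun t t1 t2 => ?_⟩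
  · have := j4 (m + 1 - t) (by omega)
    rwa [show m + 1 - (m + 1 - t) = t by omega] at this
  · have := j5 (m + 1 - t) (by rwa [show m + 1 - (m + 1 - t) = t by omega])
    omega

/-- Normal form: an unseen port of a fork with one seen port has the inner index. -/
lemma killsQ2_norm (hm : 3 ≤ m) (he : e = 0 ∨ e = 1) (he' : e' = m ∨ e' = m + 1)
    (hL : J 1 → J 0) (hR : J m → J (m + 1)) (h0 : ¬ J 0 → ¬ J 1 → s₀ 0 ≠ neg (s₀ 1))
    (h0' : ¬ J m → ¬ J (m + 1) → s₀ m ≠ neg (s₀ (m + 1)))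
    (hN : J 0 → J (m + 1) → ∃ x y, 1 ≤ x ∧ x < y ∧ y ≤ m ∧ ¬ J x ∧ ¬ J y)
    (hp : 2 ≤ p) (hpm : p + 1 ≤ m) (hJp : J p) (hp' : 2 ≤ p') (hpm' : p' + 1 ≤ m) (hne : p ≠ p')
    (hadj : ∀ a, 1 ≤ a → a ≤ m → ¬ J a → (a + 2 ≤ p ∨ p + 2 ≤ a) ∧ (a + 2 ≤ p' ∨ p' + 2 ≤ a)) :
    KillsQ2 m J e e' s₀ p p' := by
  set P : ℕ → Prop := fun j => j = p ∨ j = p' with hPdef
  have hP : ∀ j, P j ↔ (j = p ∨ j = p') := fun j => Iff.rfl
  have hPp : P p := Or.inl rfl
  have hPp' : P p' := Or.inr rfl
  have hP2 : ∀ j, P j → 2 ≤ j := by rintro j (rfl | rfl) <;> assumption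
  have hPm : ∀ j, P j → j + 1 ≤ m := by rintro j (rfl | rfl) <;> assumption
  have hadj' : ∀ a, 1 ≤ a → a ≤ m → ¬ J a → ∀ t, P t → a + 2 ≤ t ∨ t + 2 ≤ a := by
    rintro a a1 a2 a3 t (rfl | rfl)
    · exact (hadj a a1 a2 a3).1
    · exact (hadj a a1 a2 a3).2
  have em : ∀ (D D' : Ty), D ≠ D' ∨ D = D' := fun D D' => (Classical.em _).symm
  by_cases cL : J 0
  · by_cases cR : J (m + 1)
    · obtain ⟨x, y, x1, x2, x3, x4, x5⟩ := hN cL cR
      obtain ⟨i0, g1, g2, g3, g4, g5⟩ := first_unseen (m := m) cL ⟨x, x1, by omega, x4⟩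
      obtain ⟨i1, k1, k2, k3, k4, k5⟩ := last_unseen (m := m) cR ⟨x, x1, by omega, x4⟩
      have hlt : i0 < i1 := by
        have := g5 x x4
        have := k5 y x3 x5
        omega
      by_cases hgap : i0 + 2 ≤ i1
      · obtain ⟨D1, D2, dM⟩ := dev_mid (s₀ := s₀) (e := e) he' hP hne g1 hgap k2 g3 k3 hadj'
        have dL := left_single (s₀ := s₀) (P := P) he he' hP2 g1 g2 g3 g4 D1
        have dR := right_single (s₀ := s₀) (P := P) he he' hPm k1 k2 k3 k4 D2
        refine ((dL.comb dM fun j h1 h2 => ?_).comb dR fun j h1 h2 => ?_).fin (by omega)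
          (Or.inl (Or.inl trivial)) (Or.inr trivial) (fun D => ?_) hPp hPp'
        · omega
        · omega
        · rcases em D D1 with h | h
          · rcases em D D2 with h' | h'
            · exact Or.inl (Or.inr ⟨h, h'⟩)
            · exact Or.inr h'
          · exact Or.inl (Or.inl h)
      · have h6 : i1 = i0 + 1 := by omega
        subst h6
        have dS : Dev m J e e' s₀ P (fun _ => False) False False
          (fun D => stp (altT D i0) (neg (s₀ i0)) (s₀ (i0 + 1)) = false) :=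
          dev_step g1 (by omega) g3 k3
        have hh : ∀ D' : Ty, altT (altT D' i0) i0 = D' := by
          intro D'
          unfold altT
          split_ifs <;> simp [co_co]
        have hh' : ∀ D D' : Ty, altT D i0 = D' → D = altT D' i0 := by
          intro D D' h
          rw [← h, hh]
        rcases three_types (s₀ i0) (s₀ (i0 + 1)) with h7 | ⟨D1, D2, D3, h8, h9, h10, h11⟩
        · have dL := left_single (s₀ := s₀) (P := P) he he' hP2 g1 g2 g3 g4 (0, true)
          have dR := right_single (s₀ := s₀) (P := P) he he' hPm k1 k2 k3 k4 (0, true)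
          refine ((dL.comb dS fun j h1 h2 => ?_).comb dR fun j h1 h2 => ?_).fin (by omega)
            (Or.inl (Or.inl trivial)) (Or.inr trivial) (fun D => Or.inl (Or.inr (h7 _))) hPp hPp'
          · exact h2
          · rcases h1 with h1 | h1
            · omega
            · exact h1
        · have hall : ∀ D, stp (altT D i0) (neg (s₀ i0)) (s₀ (i0 + 1)) = false ∨
              (D = altT D1 i0 ∨ D = altT D2 i0) ∨ D = altT D3 i0 := by
            intro D
            rcases hb : stp (altT D i0) (neg (s₀ i0)) (s₀ (i0 + 1)) with _ | _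
            · exact Or.inl rfl
            · right
              rcases h11 _ hb with h | h | h
              · exact Or.inl (Or.inl (hh' _ _ h))
              · exact Or.inl (Or.inr (hh' _ _ h))
              · exact Or.inr (hh' _ _ h)
          have hpi : p ≠ i0 := fun h => g3 (h ▸ hJp)
          have hpi' : p ≠ i0 + 1 := fun h => k3 (h ▸ hJp)
          by_cases hside : p < i0
          · have dL := dev_left_two (s₀ := s₀) (P := P) he he' (i0 := i0)
              (fun j hj => ⟨hP2 j hj, fun h => by have := hadj' i0 g1 g2 g3 j hj; omega⟩)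
              (by omega) (by omega) g3 g4 (s₀ (i0 + 1)) (altT D1 i0) (altT D2 i0)
              (fun h => h8 (altT_inj h)) (by rw [hh]; exact h9) (by rw [hh]; exact h10)
            have dR := right_single (s₀ := s₀) (P := P) he he' hPm k1 k2 k3 k4 (altT D3 i0)
            refine ((dL.comb dS fun j h1 h2 => ?_).comb dR fun j h1 h2 => ?_).fin (by omega)
              (Or.inl (Or.inl trivial)) (Or.inr trivial) (fun D => ?_) hPp hPp'
            · exact h2
            · rcases h1 with h1 | h1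
              · omega
              · exact h1
            · rcases hall D with h | h | h
              · exact Or.inl (Or.inr h)
              · exact Or.inl (Or.inl h)
              · exact Or.inr h
          · have dR := dev_right_two (s₀ := s₀) (P := P) he he' (i1 := i0 + 1)
              (fun j hj => ⟨hPm j hj, fun h => by have := hadj' (i0 + 1) k1 k2 k3 j hj; omega⟩)
              (by omega) (by omega) k3 k4 (s₀ i0) (altT D1 i0) (altT D2 i0)
              (fun h => h8 (altT_inj h)) (by rw [Nat.add_sub_cancel, hh]; exact h9)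
              (by rw [Nat.add_sub_cancel, hh]; exact h10)
            have dL := left_single (s₀ := s₀) (P := P) he he' hP2 g1 g2 g3 g4 (altT D3 i0)
            refine ((dL.comb dS fun j h1 h2 => ?_).comb dR fun j h1 h2 => ?_).fin (by omega)
              (Or.inl (Or.inl trivial)) (Or.inr trivial) (fun D => ?_) hPp hPp'
            · exact h2
            · rcases h1 with h1 | h1
              · omega
              · exact h1
            · rcases hall D with h | h | h
              · exact Or.inl (Or.inr h)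
              · exact Or.inr h
              · exact Or.inl (Or.inl h)
    · have cm : ¬ J m := fun h => cR (hR h)
      obtain ⟨D1, dR⟩ := dev_right_unseen (e := e) (e' := e') (P := P) cm cR (h0' cm cR)
      obtain ⟨i0, g1, g2, g3, g4, g5⟩ := first_unseen (m := m) cL ⟨m, by omega, le_rfl, cm⟩
      have dL := left_single (s₀ := s₀) (P := P) he he' hP2 g1 g2 g3 g4 D1
      refine (dL.comb dR fun j h1 h2 => h2).fin (by omega) (Or.inl trivial) (Or.inr trivial)
        (fun D => ?_) hPp hPp'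
      rcases em D D1 with h | h
      · exact Or.inr h
      · exact Or.inl h
  · have c1 : ¬ J 1 := fun h => cL (hL h)
    obtain ⟨D1, dL⟩ := dev_left_unseen (m := m) (e := e) (e' := e') (P := P) cL c1 (h0 cL c1)
    by_cases cR : J (m + 1)
    · obtain ⟨i1, k1, k2, k3, k4, k5⟩ := last_unseen (m := m) cR ⟨1, le_rfl, by omega, c1⟩
      have dR := right_single (s₀ := s₀) (P := P) he he' hPm k1 k2 k3 k4 D1
      refine (dL.comb dR fun j h1 h2 => h1).fin (by omega) (Or.inl trivial) (Or.inr trivial)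
        (fun D => ?_) hPp hPp'
      rcases em D D1 with h | h
      · exact Or.inl h
      · exact Or.inr h
    · have cm : ¬ J m := fun h => cR (hR h)
      obtain ⟨D2, dR⟩ := dev_right_unseen (e := e) (e' := e') (P := P) cm cR (h0' cm cR)
      obtain ⟨a, r, ha, har, hf0, hf1, hq3, hq4, hrun⟩ := max_run c1 cm hp hpm hJp
      have hj := hrun (a + 1) le_rfl (by omega)
      have hnP : ¬ P (a + 1) := by
        intro h
        have := hadj' a ha (by omega) hf0 _ h
        omega
      have dI := dev_one (s₀ := s₀) (e := e) he' ha (by omega) hf0 hj hnP D1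
      refine ((dL.comb dR fun j h1 h2 => h1).comb dI fun j h1 h2 => ?_).fin (by omega)
        (Or.inl (Or.inl trivial)) (Or.inl (Or.inr trivial)) (fun D => ?_) hPp hPp'
      · rcases h1 with h1 | h1 <;> exact h1
      · rcases em D D1 with h | h
        · exact Or.inl (Or.inl h)
        · exact Or.inr h

/-- Two known positions. -/
lemma unseen_two (hm : 3 ≤ m) (hN : ¬ NCp m J) (h0 : J 0) (h1 : J (m + 1)) :
    ∃ x y, 1 ≤ x ∧ x < y ∧ y ≤ m ∧ ¬ J x ∧ ¬ J y := by
  classical
  unfold NCp at hN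
  simp only [not_or] at hN
  obtain ⟨-, n2, n3, n4, -, -⟩ := hN
  by_cases c1 : J 1
  · by_cases cm : J m
    · by_contra hcon
      push Not at hcon
      refine n4 ⟨h0, c1, cm, h1, fun i j i1 i2 i3 => ?_⟩
      by_contra h
      rw [not_or] at h
      exact h.2 (hcon i j (by omega) i2 (by omega) h.1)
    · by_contra hcon
      push Not at hcon
      refine n2 ⟨h0, c1, fun h => cm h.1, Or.inr h1, fun i i1 i2 => ?_⟩
      by_contra h
      exact cm (hcon i m (by omega) (by omega) le_rfl h)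
  · by_cases cm : J m
    · by_contra hcon
      push Not at hcon
      refine n3 ⟨cm, h1, fun h => c1 h.2, Or.inl h0, fun i i1 i2 => ?_⟩
      exact hcon 1 i le_rfl (by omega) (by omega) c1
    · exact ⟨1, m, le_rfl, by omega, le_rfl, c1, cm⟩

lemma ncp_swL (hm : 3 ≤ m) (h : NCp m (fun j => J (swL j))) : NCp m J := by
  have e0 : swL 0 = 1 := rfl
  have e1 : swL 1 = 0 := rfl
  have em : swL m = m := swL_of (by omega)
  have em1 : swL (m + 1) = m + 1 := swL_of (by omega)
  unfold NCp at h ⊢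
  simp only [e0, e1, em, em1] at h
  rcases h with ⟨a, b, c⟩ | ⟨a, b, c, d, e⟩ | ⟨a, b, c, d, e⟩ | ⟨a, b, c, d, e⟩ | ⟨a, b⟩ | ⟨a, b, c, d⟩
  · omega
  · refine Or.inr (Or.inl ⟨b, a, c, d, fun i i1 i2 => ?_⟩)
    have := e i i1 i2
    rwa [swL_of i1] at this
  · refine Or.inr (Or.inr (Or.inl ⟨a, b, fun h => c ⟨h.2, h.1⟩, d.symm, fun i i1 i2 => ?_⟩))
    have := e i i1 i2
    rwa [swL_of i1] at this
  · refine Or.inr (Or.inr (Or.inr (Or.inl ⟨b, a, c, d, fun i j i1 i2 i3 => ?_⟩)))
    have := e i j i1 i2 i3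
    rwa [swL_of i1, swL_of (show 2 ≤ j by omega)] at this
  · refine Or.inr (Or.inr (Or.inr (Or.inr (Or.inl ⟨a, ?_⟩))))
    rcases b with ⟨b, c, d⟩ | ⟨b, c, d⟩
    · exact Or.inl ⟨c, b, d⟩
    · exact Or.inr ⟨b, c, d.symm⟩
  · exact Or.inr (Or.inr (Or.inr (Or.inr (Or.inr ⟨a, c, b, d⟩))))

lemma ncp_swR (hm : 3 ≤ m) (h : NCp m (fun j => J (swR m j))) : NCp m J := by
  have e0 : swR m 0 = 0 := swR_of (by omega)
  have e1 : swR m 1 = 1 := swR_of (by omega)
  have em : swR m m = m + 1 := by unfold swR; simp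
  have em1 : swR m (m + 1) = m := by unfold swR; simp
  unfold NCp at h ⊢
  simp only [e0, e1, em, em1] at h
  rcases h with ⟨a, b, c⟩ | ⟨a, b, c, d, e⟩ | ⟨a, b, c, d, e⟩ | ⟨a, b, c, d, e⟩ | ⟨a, b⟩ | ⟨a, b, c, d, e⟩
  · omega
  · refine Or.inr (Or.inl ⟨a, b, fun h => c ⟨h.2, h.1⟩, d.symm, fun i i1 i2 => ?_⟩)
    have := e i i1 i2
    rwa [swR_of (by omega)] at this
  · refine Or.inr (Or.inr (Or.inl ⟨b, a, c, d, fun i i1 i2 => ?_⟩))
    have := e i i1 i2
    rwa [swR_of (by omega)] at this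
  · refine Or.inr (Or.inr (Or.inr (Or.inl ⟨a, b, d, c, fun i j i1 i2 i3 => ?_⟩)))
    have := e i j i1 i2 i3
    rwa [swR_of (by omega), swR_of (show j < m by omega)] at this
  · refine Or.inr (Or.inr (Or.inr (Or.inr (Or.inl ⟨a, ?_⟩))))
    rcases b with ⟨b, c, d⟩ | ⟨b, c, d⟩
    · exact Or.inl ⟨b, c, d.symm⟩
    · exact Or.inr ⟨c, b, d⟩
  · exact Or.inr (Or.inr (Or.inr (Or.inr (Or.inr ⟨a, b, c, e, d⟩))))

/-- Exchange of the ports of the left fork. -/
lemma killsQ2_swL (hm : 2 ≤ m) (he' : e' = m ∨ e' = m + 1) (hp : 2 ≤ p)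
    (hp' : 2 ≤ p')
    (h : KillsQ2 m (fun j => J (swL j)) (1 - e) e' (fun j => s₀ (swL j)) p p') :
    KillsQ2 m J e e' s₀ p p' := by
  have e0 : swL 0 = 1 := rfl
  have e1 : swL 1 = 0 := rfl
  have em : swL m = m := swL_of (by omega)
  have em1 : swL (m + 1) = m + 1 := swL_of (by omega)
  have hw : ∀ j ≤ m + 1, swL j ≤ m + 1 := by
    intro j hj; unfold swL; split_ifs <;> omega
  obtain ⟨F, c1, c2, c2', c3, c4, c5⟩ := h
  simp only [e0, e1, em, em1] at c3 c4
  refine ⟨fun j => F (swL j), fun j => c1 _, ?_, ?_, fun h2 h3 => ?_, fun h2 h3 => ?_,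
    fun s hs hav q1 q2 => ?_⟩
  · dsimp only
    rw [swL_of hp]; exact c2
  · dsimp only
    rw [swL_of hp']; exact c2'
  · have h4 := c3 h3 h2
    dsimp only
    rw [show swL (1 - e) = 1 - (1 - e) by
      unfold swL
      split_ifs <;> omega]
    exact h4
  · have h4 := c4 h2 h3
    dsimp only
    rw [swL_of (by omega)]; exact h4
  · have h1 := c5 (fun j => s (swL j)) (fun j hj hJ => hs _ (hw j hj) hJ) (fun j hj hJ => by
      have := hav _ (hw j hj) hJ
      dsimp only at this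
      rwa [swL_swL] at this) (by
        simp only [e0, e1]
        exact fun h2 h3 h4 => q1 h3 h2 (H3DA.eq_neg_symm h4)) (by simp only [em, em1]; exact q2)
    have h2 := cext_swL hm h1
    simp only [swL_swL] at h2
    exact h2

/-- Exchange of the ports of the right fork. -/
lemma killsQ2_swR (hm : 2 ≤ m) (he' : e' = m ∨ e' = m + 1) (hp : p < m)
    (hp' : p' < m)
    (h : KillsQ2 m (fun j => J (swR m j)) e (2 * m + 1 - e') (fun j => s₀ (swR m j)) p p') :
    KillsQ2 m J e e' s₀ p p' := by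
  have e0 : swR m 0 = 0 := swR_of (by omega)
  have e1 : swR m 1 = 1 := swR_of (by omega)
  have em : swR m m = m + 1 := by unfold swR; simp
  have em1 : swR m (m + 1) = m := by unfold swR; simp
  have hw : ∀ j ≤ m + 1, swR m j ≤ m + 1 := by
    intro j hj; unfold swR; split_ifs <;> omega
  obtain ⟨F, c1, c2, c2', c3, c4, c5⟩ := h
  simp only [e0, e1, em, em1] at c3 c4
  refine ⟨fun j => F (swR m j), fun j => c1 _, ?_, ?_, fun h2 h3 => ?_, fun h2 h3 => ?_,
    fun s hs hav q1 q2 => ?_⟩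
  · dsimp only
    rw [swR_of hp]; exact c2
  · dsimp only
    rw [swR_of hp']; exact c2'
  · dsimp only
    rw [swR_of (by omega)]; exact c3 h2 h3
  · have h4 := c4 h3 h2
    dsimp only
    rw [show swR m (2 * m + 1 - e') = e' by
      unfold swR
      split_ifs <;> omega]
    rwa [show 2 * m + 1 - (2 * m + 1 - e') = e' by omega] at h4
  · have h1 := c5 (fun j => s (swR m j)) (fun j hj hJ => hs _ (hw j hj) hJ) (fun j hj hJ => by
      have := hav _ (hw j hj) hJ
      dsimp only at this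
      rwa [swR_swR] at this) (by simp only [e0, e1]; exact q1) (by
        simp only [em, em1]
        exact fun h2 h3 h4 => q2 h3 h2 (H3DA.eq_neg_symm h4))
    have h2 := cext_swR hm h1
    simp only [swR_swR] at h2
    exact h2

/-- The static kill lemma with two light positions. -/
theorem killsQ2 (hm : 2 ≤ m) (he : e = 0 ∨ e = 1) (he' : e' = m ∨ e' = m + 1)
    (h0 : ¬ J 0 → ¬ J 1 → s₀ 0 ≠ neg (s₀ 1)) (h0' : ¬ J m → ¬ J (m + 1) → s₀ m ≠ neg (s₀ (m + 1)))
    (hN : ¬ NCp m J) (hp : 2 ≤ p) (hpm : p + 1 ≤ m) (hJp : J p) (hp' : 2 ≤ p') (hpm' : p' + 1 ≤ m)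
    (hJp' : J p') (hne : p ≠ p')
    (hadj : ∀ j ≤ m + 1, ¬ J j → (cl m j + 2 ≤ p ∨ p + 2 ≤ cl m j) ∧
      (cl m j + 2 ≤ p' ∨ p' + 2 ≤ cl m j)) : KillsQ2 m J e e' s₀ p p' := by
  have hm3 : 3 ≤ m := by omega
  have cl1 : cl m 1 = 1 := by unfold cl; rw [if_neg (by omega), if_neg (by omega)]
  have cl0 : cl m 0 = 1 := by unfold cl; rw [if_pos rfl]
  have clm : cl m m = m := by unfold cl; rw [if_neg (by omega), if_neg (by omega)]
  have clm1 : cl m (m + 1) = m := by unfold cl; rw [if_neg (by omega), if_pos rfl]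
  have cli : ∀ a, 1 ≤ a → a ≤ m → cl m a = a := by
    intro a h1 h2; unfold cl; rw [if_neg (by omega), if_neg (by omega)]
  have hwL : ∀ j ≤ m + 1, swL j ≤ m + 1 ∧ cl m (swL j) = cl m j := by
    intro j hj
    unfold swL
    split_ifs with a b
    · exact ⟨by omega, by rw [cl1, a, cl0]⟩
    · exact ⟨by omega, by rw [cl0, b, cl1]⟩
    · exact ⟨hj, rfl⟩
  have hwR : ∀ j ≤ m + 1, swR m j ≤ m + 1 ∧ cl m (swR m j) = cl m j := by
    intro j hj
    unfold swR
    split_ifs with a b
    · exact ⟨by omega, by rw [clm1, a, clm]⟩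
    · exact ⟨by omega, by rw [clm, b, clm1]⟩
    · exact ⟨hj, rfl⟩
  -- the right fork is in normal form
  have key : ∀ (J : ℕ → Prop) (s₀ : ℕ → Q) (e e' : ℕ), (e = 0 ∨ e = 1) → (e' = m ∨ e' = m + 1) →
      (J m → J (m + 1)) → (¬ J 0 → ¬ J 1 → s₀ 0 ≠ neg (s₀ 1)) →
      (¬ J m → ¬ J (m + 1) → s₀ m ≠ neg (s₀ (m + 1))) → ¬ NCp m J → J p →
      (∀ j ≤ m + 1, ¬ J j → (cl m j + 2 ≤ p ∨ p + 2 ≤ cl m j) ∧
        (cl m j + 2 ≤ p' ∨ p' + 2 ≤ cl m j)) → KillsQ2 m J e e' s₀ p p' := by
    intro J s₀ e e' he he' hR h0 h0' hN hJp hadj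
    by_cases hL : J 1 → J 0
    · refine killsQ2_norm hm3 he he' hL hR h0 h0' (fun a b => unseen_two hm3 hN a b) hp hpm hJp hp'
        hpm' hne (fun a h1 h2 h3 => ?_)
      have := hadj a (by omega) h3
      rwa [cli a h1 h2] at this
    · rw [Classical.not_imp] at hL
      have e0 : swL 0 = 1 := rfl
      have e1 : swL 1 = 0 := rfl
      have em : swL m = m := swL_of (by omega)
      have em1 : swL (m + 1) = m + 1 := swL_of (by omega)
      have hN' : ¬ NCp m (fun j => J (swL j)) := fun h => hN (ncp_swL hm3 h)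
      refine killsQ2_swL hm he' hp hp' (killsQ2_norm hm3 (by omega) he' ?_ ?_ ?_ ?_
        (fun a b => unseen_two hm3 hN' a b) hp hpm ?_ hp' hpm' hne (fun a h1 h2 h3 => ?_))
      · simp only [e0, e1]
        exact fun h => absurd h hL.2
      · simp only [em, em1]; exact hR
      · simp only [e0, e1]
        exact fun h => absurd hL.1 h
      · simp only [em, em1]; exact h0'
      · show J (swL p)
        rwa [swL_of hp]
      · obtain ⟨w1, w2⟩ := hwL a (by omega)
        have := hadj _ w1 h3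
        rwa [w2, cli a h1 h2] at this
  by_cases hR : J m → J (m + 1)
  · exact key J s₀ e e' he he' hR h0 h0' hN hJp hadj
  · rw [Classical.not_imp] at hR
    have e0 : swR m 0 = 0 := swR_of (by omega)
    have e1 : swR m 1 = 1 := swR_of (by omega)
    have em : swR m m = m + 1 := by unfold swR; simp
    have em1 : swR m (m + 1) = m := by unfold swR; simp
    refine killsQ2_swR hm he' (by omega) (by omega) (key _ _ _ _ he (by omega) ?_ ?_ ?_
      (fun h => hN (ncp_swR hm3 h)) ?_ (fun j hj h3 => ?_))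
    · simp only [em, em1]
      exact fun h => absurd h hR.2
    · simp only [e0, e1]; exact h0
    · simp only [em, em1]
      exact fun _ h => absurd hR.1 h
    · show J (swR m p)
      rwa [swR_of (by omega)]
    · obtain ⟨w1, w2⟩ := hwR j hj
      have := hadj _ w1 h3
      rwa [w2] at this

end CLB.H57
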